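import Pool.Agent.Work.MP_91e6de_nt.BM.Stmts

set_option autoImplicit false

namespace Pool.Agent.Work.MP_91e6de_nt.BM

open MvPolynomial Height Height.AdmissibleAbsValues Filter Topology
open Pool.Agent.Work.MP_91e6de_nt.BL

namespace AuxFd

variable {K : Type} [Field K]

/-- Exponent vectors of degree at most `N` and compositions of `N`. -/
noncomputable def degEquiv (N : ℕ) :
    {μ : Fin 2 →₀ ℕ // (μ.sum fun _ e => e) ≤ N} ≃ {P : Option (Fin 2) → ℕ // ∑ i, P i = N} where
  toFun μ := ⟨fun o => o.elim (N - ∑ i, μ.1 i) μ.1, by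
    have h := μ.2
    rw [Finsupp.sum_fintype _ _ (fun _ => rfl)] at h
    rw [Fintype.sum_option]
    simp only [Option.elim]
    omega⟩
  invFun P := ⟨Finsupp.equivFunOnFinite.symm (fun i => P.1 (some i)), by
    have h := P.2
    rw [Fintype.sum_option] at h
    rw [Finsupp.sum_fintype _ _ (fun _ => rfl)]
    simp only [Finsupp.equivFunOnFinite_symm_apply_apply]
    omega⟩
  left_inv μ := by
    ext i
    simp
  right_inv P := by
    have h := P.2
    rw [Fintype.sum_option] at h
    apply Subtype.ext
    funext o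
    cases o with
    | none =>
      simp only [Option.elim, Finsupp.equivFunOnFinite_symm_apply_apply]
      omega
    | some i => simp

theorem card_deg (N : ℕ) : Nat.card {μ : Fin 2 →₀ ℕ // (μ.sum fun _ e => e) ≤ N} =
    (N + 2).choose 2 := by
  classical
  rw [Nat.card_congr (degEquiv N),
    Nat.card_congr (Sym.equivNatSumOfFintype (Option (Fin 2)) N).symm, Nat.card_eq_fintype_card,
    Sym.card_sym_eq_multichoose, Fintype.card_option, Fintype.card_fin, Nat.multichoose_eq]
  have e : 2 + 1 + N - 1 = N + 2 := by omega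
  rw [e, Nat.choose_symm_add]

/-- the space of polynomials of degree at most `N` -/
noncomputable abbrev V (N : ℕ) : Submodule K (MvPolynomial (Fin 2) K) :=
  restrictTotalDegree (Fin 2) K N

theorem mem_V {N : ℕ} {q : MvPolynomial (Fin 2) K} (h : q.totalDegree ≤ N) : q ∈ V N :=
  (mem_restrictTotalDegree _ _ _).2 h

theorem deg_V {N : ℕ} {q : MvPolynomial (Fin 2) K} (h : q ∈ V N) : q.totalDegree ≤ N :=
  (mem_restrictTotalDegree _ _ _).1 h

theorem finrank_deg (N : ℕ) : Module.finrank K (V (K := K) N) = (N + 2).choose 2 := by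
  rw [← card_deg N]
  exact Module.finrank_eq_nat_card_basis (basisRestrictSupport K _)

theorem two_mul_choose (n : ℕ) : 2 * (n + 2).choose 2 = (n + 2) * (n + 1) := by
  rw [Nat.choose_two_right]
  have := Nat.even_mul_pred_self (n + 2)
  rw [Nat.two_mul_div_two_of_even this]
  rfl

theorem main (f g : MvPolynomial (Fin 2) K) (hfg : IsRelPrime f g) (hf0 : f ≠ 0)
    (s : Finset (MvPolynomial (Fin 2) K ⧸ Ideal.span {f, g}))
    (hs : LinearIndependent K ((↑) : ↥(s : Set (MvPolynomial (Fin 2) K ⧸ Ideal.span {f, g})) →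
      MvPolynomial (Fin 2) K ⧸ Ideal.span {f, g})) :
    s.card ≤ f.totalDegree * g.totalDegree := by
  classical
  set d₁ := f.totalDegree with hd₁
  set d₂ := g.totalDegree with hd₂
  have hex : ∀ a : MvPolynomial (Fin 2) K ⧸ Ideal.span {f, g},
      ∃ p : MvPolynomial (Fin 2) K, Ideal.Quotient.mk (Ideal.span {f, g}) p = a :=
    fun a => Ideal.Quotient.mk_surjective a
  choose p hp using hex
  set M := s.sup (fun a => (p a).totalDegree) with hM
  have hMp : ∀ a ∈ s, (p a).totalDegree ≤ M := fun a ha =>
    Finset.le_sup (f := fun a => (p a).totalDegree) ha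
  -- the quotient map
  let E : V (K := K) (M + d₁ + d₂) →ₗ[K] (MvPolynomial (Fin 2) K ⧸ Ideal.span {f, g}) :=
    (Ideal.Quotient.mkₐ K (Ideal.span {f, g})).toLinearMap.comp (V (K := K) (M + d₁ + d₂)).subtype
  have hE : s.card ≤ Module.finrank K (LinearMap.range E) := by
    rw [← finrank_span_finset_eq_card hs]
    apply Submodule.finrank_mono
    rw [Submodule.span_le]
    intro a ha
    refine ⟨⟨p a, mem_V ?_⟩, ?_⟩
    · have := hMp a ha
      omega
    · change Ideal.Quotient.mk (Ideal.span {f, g}) (p a) = a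
      exact hp a
  -- the map `(u, v) ↦ u f + v g`
  let Φ : (V (M + d₂) × V (M + d₁)) →ₗ[K] V (M + d₁ + d₂) :=
    { toFun := fun w => ⟨w.1.1 * f + w.2.1 * g, by
        have h1 := deg_V w.1.2
        have h2 := deg_V w.2.2
        exact Submodule.add_mem _ (mem_V ((totalDegree_mul _ _).trans (by omega)))
          (mem_V ((totalDegree_mul _ _).trans (by omega)))⟩
      map_add' := by
        intro x y
        apply Subtype.ext
        simp only [Prod.fst_add, Prod.snd_add, Submodule.coe_add]
        ring
      map_smul' := by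
        intro c x
        apply Subtype.ext
        simp only [Prod.smul_fst, Prod.smul_snd, Submodule.coe_smul, smul_mul_assoc,
          RingHom.id_apply, smul_add] }
  let Ψ : V M →ₗ[K] (V (M + d₂) × V (M + d₁)) :=
    { toFun := fun w => (⟨w.1 * g, by
        have h1 := deg_V w.2
        exact mem_V ((totalDegree_mul _ _).trans (by omega))⟩, ⟨-(w.1 * f), by
        have h1 := deg_V w.2
        apply mem_V
        rw [totalDegree_neg]
        exact (totalDegree_mul _ _).trans (by omega)⟩)
      map_add' := by
        intro x y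
        apply Prod.ext <;> apply Subtype.ext <;>
          simp only [Prod.fst_add, Prod.snd_add, Submodule.coe_add] <;> ring
      map_smul' := by
        intro c x
        apply Prod.ext <;> apply Subtype.ext <;>
          simp only [Prod.smul_fst, Prod.smul_snd, Submodule.coe_smul, smul_mul_assoc,
          RingHom.id_apply, smul_neg] }
  have hker : LinearMap.ker Φ ≤ LinearMap.range Ψ := by
    rintro ⟨⟨u, hu⟩, ⟨v, hv⟩⟩ huv
    rw [LinearMap.mem_ker] at huv
    have h1 : u * f + v * g = 0 := congrArg Subtype.val huv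
    have h2 : f ∣ g * v := ⟨-u, by linear_combination h1⟩
    obtain ⟨w, hw⟩ := hfg.dvd_of_dvd_mul_left h2
    have hu2 : u = -w * g := by
      apply mul_right_cancel₀ hf0
      rw [hw] at h1
      linear_combination h1
    have hwdeg : (-w).totalDegree ≤ M := by
      by_cases hw0 : w = 0
      · simp [hw0]
      · have h3 := totalDegree_mul_of_isDomain hf0 hw0
        rw [← hw, ← hd₁] at h3
        have h4 := deg_V hv
        rw [totalDegree_neg]
        omega
    refine ⟨⟨-w, mem_V hwdeg⟩, ?_⟩
    apply Prod.ext <;> apply Subtype.ext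
    · change -w * g = u
      exact hu2.symm
    · change -(-w * f) = v
      rw [hw]; ring
  have hrange : LinearMap.range Φ ≤ LinearMap.ker E := by
    rintro _ ⟨w, rfl⟩
    rw [LinearMap.mem_ker]
    change Ideal.Quotient.mk (Ideal.span {f, g}) (w.1.1 * f + w.2.1 * g) = 0
    rw [Ideal.Quotient.eq_zero_iff_mem]
    exact Ideal.add_mem _ (Ideal.mul_mem_left _ _ (Ideal.subset_span (by simp)))
      (Ideal.mul_mem_left _ _ (Ideal.subset_span (by simp)))
  have r1 := LinearMap.finrank_range_add_finrank_ker E
  have r2 := LinearMap.finrank_range_add_finrank_ker Φ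
  have r3 : Module.finrank K (LinearMap.ker Φ) ≤ Module.finrank K (V (K := K) M) :=
    (Submodule.finrank_mono hker).trans (LinearMap.finrank_range_le Ψ)
  have r4 := Submodule.finrank_mono hrange
  rw [Module.finrank_prod] at r2
  simp only [finrank_deg] at r1 r2 r3
  have c1 := two_mul_choose (M + d₁ + d₂)
  have c2 := two_mul_choose (M + d₂)
  have c3 := two_mul_choose (M + d₁)
  have c4 := two_mul_choose M
  have key : 2 * s.card + (M + d₂ + 2) * (M + d₂ + 1) + (M + d₁ + 2) * (M + d₁ + 1) ≤
      (M + d₁ + d₂ + 2) * (M + d₁ + d₂ + 1) + (M + 2) * (M + 1) := by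
    rw [← c1, ← c2, ← c3, ← c4]; omega
  nlinarith [key]

end AuxFd

theorem pr_Fd : S_Fd := by
  intro K _ u w huw
  by_cases hu : u = 0
  · subst hu
    have hw : IsUnit w := huw (dvd_zero w) dvd_rfl
    have htop : Ideal.span {(0 : Pol K), w} = ⊤ := by
      exact Ideal.eq_top_of_isUnit_mem _ (Ideal.subset_span (by simp)) hw
    have : Subsingleton (Pol K ⧸ Ideal.span {(0 : Pol K), w}) :=
      Ideal.Quotient.subsingleton_iff.2 htop
    infer_instance
  · rw [← Module.rank_lt_aleph0_iff]
    by_contra hcon
    rw [not_lt] at hcon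
    have h1 : ((u.totalDegree * w.totalDegree + 1 : ℕ) : Cardinal) ≤
        Module.rank K (Pol K ⧸ Ideal.span {u, w}) :=
      Cardinal.natCast_lt_aleph0.le.trans hcon
    rw [le_rank_iff_exists_linearIndependent_finset] at h1
    obtain ⟨s, hs1, hs2⟩ := h1
    have := AuxFd.main u w huw hu s hs2
    omega

end Pool.Agent.Work.MP_91e6de_nt.BM
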