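import Pool.Agent.Work.MP_91e6de_nt.Bdx.B04
import Pool.Agent.Work.MP_91e6de_nt.Bdx.B05
import Pool.Agent.Work.MP_91e6de_nt.BM.I_Fd
import Pool.Agent.Work.MP_91e6de_nt.Bdx.B06
import Pool.Agent.Work.MP_91e6de_nt.Bdx.B07
import Pool.Agent.Work.MP_91e6de_nt.Bdx.B08

set_option autoImplicit false

/-!
# MP_91e6de_nt, block BM: assembly
-/

namespace Pool.Agent.Work.MP_91e6de_nt.BM

theorem all_Add : S_Add := pr_Add pr_Fd

theorem all_VanC : S_VanC := pr_VanC pr_Van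

theorem all_Sub : S_Sub := pr_Sub pr_Van

theorem all_Nm : S_Nm := pr_Nm pr_NmI all_Add pr_YMs

theorem all_Crv : S_Crv := pr_Crv pr_Rt all_Nm pr_Inv pr_YMs

theorem all_Jn : S_Jn := pr_Jn all_VanC

theorem all_Bz : S_Bz := pr_Bz all_Crv pr_Up1

theorem all_Gen : S_Gen := pr_Gen all_Crv all_Jn all_Bz pr_CopU

theorem all_Mu0 : S_Mu0 := pr_Mu0 all_Gen all_Bz pr_CopU

theorem all_Mu1 : S_Mu1 := pr_Mu1 all_Crv all_Jn all_Gen pr_Up1

theorem all_Mu : S_Mu := pr_Mu all_Mu0 all_Mu1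

theorem all_A2 : S_A2 := pr_A2 all_Sub (pr_IndU pr_Fd) pr_DivL pr_NA2 pr_LocD pr_PFH2

theorem all_DimI : S_DimI := pr_DimI all_Crv all_Jn pr_Up1 all_Add pr_Fd

theorem all_DimQ : S_DimQ := pr_DimQ all_DimI all_Gen all_Add

theorem all_A1g : S_A1g := pr_A1g (pr_DivQ all_DimQ)

theorem all_A1 : S_A1 := pr_A1 all_Sub pr_SqC all_A1g pr_NA1 pr_LocD pr_PFH2

theorem all_Str : S_Str := pr_Str all_Crv all_Jn pr_CopU pr_StrU pr_Up1

theorem all_NF : S_NF := pr_NF pr_Fib pr_Deg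

theorem all_Pre : S_Pre := pr_Pre all_NF pr_Prp all_VanC pr_Up1

theorem all_WordF : S_WordF := pr_WordF all_Pre (pr_ND pr_Top) pr_Prp pr_Up1

theorem all_Key2 : S_Key2 := pr_Key2 all_Mu all_A1 all_A2 (pr_SelW pr_Van) pr_PFS all_Str

theorem all_Main3 : S_Main3 := pr_Main3 (pr_BaseUp pr_Top) pr_FnIt pr_ItIt all_WordF all_Key2
  (pr_KeyIt pr_ItIt) pr_MainC

end Pool.Agent.Work.MP_91e6de_nt.BM
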