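import Pool.Agent.Work.MP_91e6de_nt.BL.All

set_option autoImplicit false

/-!
# MP_91e6de_nt, block BM: the Kawaguchi-Silverman conjecture for finite polynomial maps of the
plane with at least two base points at infinity. Definitions. See `BM/PROOF.md` (note 2326).
-/

namespace Pool.Agent.Work.MP_91e6de_nt.BM

open MvPolynomial Height Height.AdmissibleAbsValues
open Pool.Agent.Work.MP_91e6de_nt.BL

section
variable {K : Type} [Field K]

/-- the linear form vanishing at the vector `v` -/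
noncomputable def lf (v : Fin 2 → K) : Pol K := C (v 1) * X 0 - C (v 0) * X 1

/-- `u 0 + a * u 1 + a ^ 2` -/
noncomputable def la (a : K) (u : Fin 2 → Pol K) : Pol K := u 0 + C a * u 1 + C (a ^ 2)

/-- intersection number in the affine plane (meaningful for coprime `u`, `w`) -/
noncomputable def Ii (u w : Pol K) : ℕ := Module.finrank K (Pol K ⧸ Ideal.span {u, w})

/-- `G` has total degree `q` and contains the monomial `y ^ q` -/
def YM (G : Pol K) (q : ℕ) : Prop := G.totalDegree = q ∧ coeff (Finsupp.single 1 q) G ≠ 0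

/-- the substitution `x ↦ x + τ y`, `y ↦ y` -/
noncomputable def sh (τ : K) : Pol K →ₐ[K] Pol K := aeval ![X 0 + C τ * X 1, X 1]

/-- size of a point of the complex plane -/
noncomputable def cn (z : Fin 2 → ℂ) : ℝ := max (max ‖z 0‖ ‖z 1‖) 1

/-- value of the polynomial map `u` at the complex point `z` -/
noncomputable def ce (φ : K →+* ℂ) (u : Fin 2 → Pol K) (z : Fin 2 → ℂ) : Fin 2 → ℂ :=
  fun i => eval₂ φ z (u i)

/-- the roots `y` of `G (t, y) = 0` -/
noncomputable def rt (φ : K →+* ℂ) (G : Pol K) (t : ℂ) : Multiset ℂ :=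
  (eval₂ (Polynomial.C.comp φ) ![Polynomial.C t, Polynomial.X] G : Polynomial ℂ).roots

/-- `Z t` (`t : ℂ`) are the points of the complex curve `G = 0` with `x - τ y = t`, counted with
multiplicity, for some `τ` such that the direction `(τ, 1)` is not at infinity on the curve -/
structure Crv (φ : K →+* ℂ) (G : Pol K) (Z : ℂ → Multiset (Fin 2 → ℂ)) : Prop where
  card : ∀ t, Multiset.card (Z t) = G.totalDegree
  zero : ∀ t, ∀ z ∈ Z t, eval₂ φ z G = 0
  mem : ∀ z, eval₂ φ z G = 0 → ∃ t, z ∈ Z t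
  bd : ∃ C : ℝ, 1 ≤ C ∧ ∀ t, ∀ z ∈ Z t, cn z ≤ C * max ‖t‖ 1 ∧ ‖t‖ ≤ C * cn z
  lin : ∃ l : Pol K, IsRelPrime G l ∧ ∀ t, ∀ z ∈ Z t, eval₂ φ z l = t
  poi : ∀ T : Pol K, IsRelPrime G T → ∃ C ρ : ℝ, 1 ≤ ρ ∧ ∀ t : ℂ, ρ ≤ ‖t‖ →
    (∀ z ∈ Z t, eval₂ φ z T ≠ 0) ∧
    |((Z t).map (fun z => Real.log ‖eval₂ φ z T‖)).sum - Ii G T * Real.log ‖t‖| ≤ C

/-- `P` is integral outside `T` -/
def SI [NumberField K] (T : Finset (AbsoluteValue K ℝ)) (P : Fin 2 → K) : Prop :=
  ∀ v ∈ nonarchAbsVal (K := K), v ∉ T → ∀ i, v (P i) ≤ 1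

/-- `f` is finite: the coordinates are integral over the ring generated by `f 0`, `f 1` -/
def Fn (f : Fin 2 → Pol K) : Prop :=
  ∀ i, (aeval f : Pol K →ₐ[K] Pol K).toRingHom.IsIntegralElem (X i)

/-- `μ i * d ^ (j - i)` is the intersection number of a generic line pulled back by the `i`-th
iterate and a generic line pulled back by the `j`-th iterate, `i ≤ j` -/
def MuP (f : Fin 2 → Pol K) (d : ℕ) (μ : ℕ → ℕ) : Prop := ∀ i j, i ≤ j →
  ∃ E : Finset K, ∀ a, a ∉ E →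
    (∃ E' : Finset K, ∀ b, b ∉ E' → IsRelPrime (la a (it f i)) (la b (it f j)) ∧
      Ii (la a (it f i)) (la b (it f j)) = μ i * d ^ (j - i)) ∧
    ∀ k : Fin 2, (it f j k).totalDegree = d ^ j →
      ∃ E' : Finset K, ∀ b, b ∉ E' → IsRelPrime (la a (it f i)) (la b ![it f j k, 0]) ∧
        Ii (la a (it f i)) (la b ![it f j k, 0]) = μ i * d ^ (j - i)

/-- the polynomial attached to the word `w` -/
noncomputable def Qw (f : Fin 2 → Pol K) (v : Fin 2 → Fin 2 → K) (k : ℕ) (w : ℕ → Fin 2)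
    (a c : K) : Pol K :=
  ∑ i ∈ Finset.range (k + 1), C (a ^ i) * (aeval (it f i) (lf (v (w i))) + C c) *
    ∏ i' ∈ (Finset.range (k + 1)).erase i, la c (it f i')

/-- the word `w` is realised at infinity: on the generic curve `ℓ ∘ f ^ (k + 1) = 0` there are
points `z` going to infinity such that `f ^ i (z)` is near the direction `v (w i)`, `i ≤ k` -/
def WR (φ : K →+* ℂ) (f : Fin 2 → Pol K) (v : Fin 2 → Fin 2 → K) (k : ℕ) (w : ℕ → Fin 2) :
    Prop := ∃ E : Finset K, ∀ b, b ∉ E → ∃ η C : ℝ, 0 < η ∧ ∀ M : ℝ, ∃ z : Fin 2 → ℂ,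
  M ≤ cn z ∧ eval₂ φ z (la b (it f (k + 1))) = 0 ∧
  ∀ i, i ≤ k → cn z ^ η ≤ cn (ce φ (it f i) z) ∧
    ‖eval₂ φ z (aeval (it f i) (lf (v (w i))) : Pol K)‖ ≤ C * cn (ce φ (it f i) z) * cn z ^ (-η)

/-- the height inequality along the orbit -/
def KeyC [NumberField K] (f : Fin 2 → Pol K) (d : ℕ) (P : Fin 2 → K) : Prop :=
  ∃ (δ : ℝ) (m₀ : ℕ), 0 < δ ∧ ∀ m, m₀ ≤ m → ∃ (Z : Pol K) (C : ℝ), Z ≠ 0 ∧
    ∀ n, eval (orb f P n) Z ≠ 0 →
      δ * (d : ℝ) ^ m * hP (orb f P n) ≤ hP (orb f P (n + m)) + C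

end

end Pool.Agent.Work.MP_91e6de_nt.BM
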