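import Pool.Agent.Work.MP_91e6de_nt.BM.Defs

set_option autoImplicit false

/-!
# MP_91e6de_nt, block BM: statements of the items

All items are independent; each takes some of the statements below as explicit hypotheses.
-/

namespace Pool.Agent.Work.MP_91e6de_nt.BM

open MvPolynomial Height Height.AdmissibleAbsValues Filter Topology
open Pool.Agent.Work.MP_91e6de_nt.BL

/-! ## Intersection numbers -/

/-- coprime polynomials have a finite dimensional quotient -/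
def S_Fd : Prop := ∀ (K : Type) [Field K] (u w : Pol K), IsRelPrime u w →
  Module.Finite K (Pol K ⧸ Ideal.span {u, w})

/-- additivity of the intersection number -/
def S_Add : Prop := ∀ (K : Type) [Field K] (u u' w : Pol K), IsRelPrime (u * u') w →
  Ii (u * u') w = Ii u w + Ii u' w

/-- the shear `x ↦ x + τ y` -/
def S_Inv : Prop := ∀ (K : Type) [Field K] (τ : K),
  (∀ u : Pol K, sh (-τ) (sh τ u) = u) ∧
  (∀ u : Pol K, (sh τ u).totalDegree = u.totalDegree) ∧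
  (∀ u w : Pol K, IsRelPrime (sh τ u) (sh τ w) ↔ IsRelPrime u w) ∧
  (∀ u w : Pol K, Ii (sh τ u) (sh τ w) = Ii u w) ∧
  (∀ (φ : K →+* ℂ) (z : Fin 2 → ℂ) (u : Pol K),
    eval₂ φ z (sh τ u) = eval₂ φ ![z 0 + φ τ * z 1, z 1] u)

/-- monic in `y`, up to a constant -/
def S_YMs : Prop := (∀ (K : Type) [Field K] (G G' : Pol K) (q : ℕ), YM (G * G') q →
    YM G G.totalDegree ∧ YM G' G'.totalDegree ∧ G.totalDegree + G'.totalDegree = q) ∧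
  (∀ (K : Type) [Field K] [CharZero K] (G : Pol K), G ≠ 0 →
    ∃ E : Finset K, ∀ τ, τ ∉ E → YM (sh τ G) G.totalDegree)

/-- generic coprimality -/
def S_CopU : Prop := ∀ (K : Type) [Field K] (G : Pol K), G ≠ 0 →
  (∀ u : Fin 2 → Pol K, ∃ E : Finset K, ∀ b, b ∉ E → IsRelPrime G (la b u)) ∧
  (∀ Q : Pol K, ∃ E : Finset K, ∀ c, c ∉ E → IsRelPrime G (Q + C c))

/-- generic fibres are reduced -/
def S_SqC : Prop := ∀ (K : Type) [Field K] [CharZero K] (Q : Pol K), 1 ≤ Q.totalDegree →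
  ∃ E : Finset K, ∀ c, c ∉ E → Squarefree (Q + C c)

/-! ## Vandermonde -/

/-- at most `k` of the values `∑ x i * a ^ i` are small -/
def S_Van : Prop := ∀ (K : Type) [Field K] (v : AbsoluteValue K ℝ) (𝒜 : Finset K) (k : ℕ),
  ∃ κ : ℝ, 0 < κ ∧ ∀ x : Fin (k + 1) → K, ∃ B ⊆ 𝒜, B.card ≤ k ∧
    ∀ a ∈ 𝒜, a ∉ B → ∀ i, κ * v (x i) ≤ v (∑ i, x i * a ^ (i : ℕ))

/-- the same for complex numbers -/
def S_VanC : Prop := ∀ (K : Type) [Field K] (φ : K →+* ℂ) (𝒜 : Finset K) (k : ℕ),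
  ∃ κ : ℝ, 0 < κ ∧ ∀ x : Fin (k + 1) → ℂ, ∃ B ⊆ 𝒜, B.card ≤ k ∧
    ∀ a ∈ 𝒜, a ∉ B → ∀ i, κ * ‖x i‖ ≤ ‖∑ i, x i * φ a ^ (i : ℕ)‖

/-- `s` good elements for all absolute values of a finite set -/
def S_Sub : Prop := ∀ (K : Type) [Field K] (T : Finset (AbsoluteValue K ℝ)) (𝒜 : Finset K)
  (k s : ℕ), s + k * T.card ≤ 𝒜.card → ∃ κ : ℝ, 0 < κ ∧ ∀ x : Fin (k + 1) → K, ∃ 𝒜' ⊆ 𝒜,
    𝒜'.card = s ∧ ∀ a ∈ 𝒜', ∀ v ∈ T, ∀ i, κ * v (x i) ≤ v (∑ i, x i * a ^ (i : ℕ))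

/-! ## Growth on complex curves -/

/-- the roots `y` of `G (t, y)` -/
def S_Rt : Prop := ∀ (K : Type) [Field K] (φ : K →+* ℂ) (G : Pol K) (q : ℕ), YM G q →
  ∃ C : ℝ, 1 ≤ C ∧ ∀ t : ℂ, Multiset.card (rt φ G t) = q ∧
    (∀ y : ℂ, y ∈ rt φ G t ↔ eval₂ φ ![t, y] G = 0) ∧
    ∀ y ∈ rt φ G t, cn ![t, y] ≤ C * max ‖t‖ 1

/-- upper bound for the values of a polynomial -/
def S_Up1 : Prop := ∀ (K : Type) [Field K] (φ : K →+* ℂ) (T : Pol K), ∃ B : ℝ, 1 ≤ B ∧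
  ∀ z : Fin 2 → ℂ, ‖eval₂ φ z T‖ ≤ B * cn z ^ T.totalDegree

/-- the norm from an irreducible plane curve to the `x`-axis -/
def S_NmI : Prop := ∀ (K : Type) [Field K] (φ : K →+* ℂ) (G : Pol K) (q : ℕ) (T : Pol K),
  YM G q → Irreducible G → ¬ G ∣ T → ∃ R : Polynomial K, R ≠ 0 ∧ R.natDegree = Ii G T ∧
    ∀ t : ℂ, R.eval₂ φ t = ((rt φ G t).map (fun y => eval₂ φ ![t, y] T)).prod

/-- the norm from a plane curve to the `x`-axis -/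
def S_Nm : Prop := ∀ (K : Type) [Field K] (φ : K →+* ℂ) (G : Pol K) (q : ℕ) (T : Pol K),
  YM G q → IsRelPrime G T → ∃ R : Polynomial K, R ≠ 0 ∧ R.natDegree = Ii G T ∧
    ∀ t : ℂ, R.eval₂ φ t = ((rt φ G t).map (fun y => eval₂ φ ![t, y] T)).prod

/-- every plane curve has a good system of points -/
def S_Crv : Prop := ∀ (K : Type) [Field K] (φ : K →+* ℂ) (G : Pol K), G ≠ 0 →
  ∃ Z : ℂ → Multiset (Fin 2 → ℂ), Crv φ G Z

/-- growth of a pair of polynomials on a curve -/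
def S_Jn : Prop := ∀ (K : Type) [Field K] (φ : K →+* ℂ) (G : Pol K)
  (Z : ℂ → Multiset (Fin 2 → ℂ)) (M : ℕ) (u : Fin 2 → Pol K) (𝒜 : Finset K), Crv φ G Z →
  2 * G.totalDegree < 𝒜.card → (∀ a ∈ 𝒜, IsRelPrime G (la a u) ∧ Ii G (la a u) ≤ M) →
  ∃ C ρ : ℝ, 1 ≤ ρ ∧ ∀ t : ℂ, ρ ≤ ‖t‖ →
    ((Z t).map (fun z => Real.log (cn (ce φ u z)))).sum ≤ M * Real.log ‖t‖ + C

/-- Bezout -/
def S_Bz : Prop := ∀ (K : Type) [Field K] (_ : K →+* ℂ) (G T : Pol K), G ≠ 0 →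
  IsRelPrime G T → Ii G T ≤ G.totalDegree * T.totalDegree

/-- generic intersection number -/
def S_Gen : Prop := ∀ (K : Type) [Field K] (_ : K →+* ℂ) (G : Pol K) (u : Fin 2 → Pol K),
  G ≠ 0 → ∃ ρ : ℕ, (∀ b, IsRelPrime G (la b u) → Ii G (la b u) ≤ ρ) ∧
    ∃ E : Finset K, ∀ b, b ∉ E → IsRelPrime G (la b u) ∧ Ii G (la b u) = ρ

/-- generic self-intersection number of the pull back of a line -/
def S_Mu0 : Prop := ∀ (K : Type) [Field K] (_ : K →+* ℂ) (u : Fin 2 → Pol K),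
  ∃ (μ : ℕ) (E : Finset K), ∀ a, a ∉ E → la a u ≠ 0 ∧ ∃ E' : Finset K, ∀ b, b ∉ E' →
    IsRelPrime (la a u) (la b u) ∧ Ii (la a u) (la b u) = μ

/-- the pull back of a generic line by `u`, intersected with the pull back by `g ∘ u` -/
def S_Mu1 : Prop := ∀ (K : Type) [Field K] (_ : K →+* ℂ) (u g : Fin 2 → Pol K) (μ e : ℕ)
  (E : Finset K), (∀ a, a ∉ E → la a u ≠ 0 ∧ ∃ E' : Finset K, ∀ b, b ∉ E' →
    IsRelPrime (la a u) (la b u) ∧ Ii (la a u) (la b u) = μ) →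
  (∀ k, (g k).totalDegree ≤ e) → (∃ k, (g k).totalDegree = e) →
  ∃ E₁ : Finset K, ∀ a, a ∉ E₁ → ∃ E' : Finset K, ∀ b, b ∉ E' →
    IsRelPrime (la a u) (la b (fun k => aeval u (g k))) ∧
      Ii (la a u) (la b (fun k => aeval u (g k))) = μ * e

/-- the numbers `μ i` -/
def S_Mu : Prop := ∀ (K : Type) [Field K] (_ : K →+* ℂ) (f : Fin 2 → Pol K) (d : ℕ), 1 ≤ d →
  (∀ n, dg f n = d ^ n) → ∃ μ : ℕ → ℕ, MuP f d μ

/-! ## Lower bound for the height of the image -/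

/-- independent products -/
def S_IndU : Prop := ∀ (K : Type) [Field K] (u F : Pol K), IsRelPrime u F → ∃ C₀ : ℕ,
  ∀ N s' : ℕ, ∃ W : Submodule K (Pol K), FiniteDimensional K W ∧
    (N + 1) * (s' + 1) * Ii u F ≤ Module.finrank K W ∧ ∀ T ∈ W, ∃ a : ℕ → ℕ → Pol K,
      (∀ l k, (a l k).totalDegree ≤ C₀) ∧
      T = ∑ l ∈ Finset.range (s' + 1), ∑ k ∈ Finset.range (N + 1), a l k * u ^ l * F ^ k

/-- divisibility by linear polynomials -/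
def S_DivL : Prop := ∀ (K : Type) [Field K] (W : Submodule K (Pol K)) (B : ℕ) (𝒜 : Finset K),
  FiniteDimensional K W → (∀ T ∈ W, T.totalDegree ≤ B) →
  𝒜.card * (B + 1) < Module.finrank K W →
  ∃ R : Pol K, R ≠ 0 ∧ (∏ c ∈ 𝒜, la c (fun i => X i)) * R ∈ W

/-- numerical inequality -/
def S_NA2 : Prop := ∀ (μ J : ℕ) (ε : ℝ), 1 ≤ J → 0 < ε → ε < (μ : ℝ) / J → ∃ A : ℝ, 0 ≤ A ∧
  ∀ e C₀ : ℕ, 1 ≤ e → ∃ N s' s : ℕ, 1 ≤ s' ∧ C₀ ≤ s ∧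
    s * (C₀ + s' * J + N * (J * e) + 1) < (N + 1) * (s' + 1) * (μ * e) ∧
    ((μ : ℝ) / J - ε) * s' ≤ (s : ℝ) - C₀ ∧ (N : ℝ) * (J * e) ≤ A * s'

/-- local inequality -/
def S_LocD : Prop := ∀ (K : Type) [Field K] (v : AbsoluteValue K ℝ) (D R u F : Pol K)
  (a : ℕ → ℕ → Pol K) (C₀ s' N : ℕ), (∀ l k, (a l k).totalDegree ≤ C₀) →
  D * R = ∑ l ∈ Finset.range (s' + 1), ∑ k ∈ Finset.range (N + 1), a l k * u ^ l * F ^ k →
  ∃ B : ℝ, 1 ≤ B ∧ ∀ P : Fin 2 → K, v (eval P D) * v (eval P R) ≤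
    B * nn v P ^ C₀ * (max 1 (v (eval P u))) ^ s' * (max 1 (v (eval P F))) ^ N

/-- from inequalities at all places to an inequality of heights, three points -/
def S_PFH2 : Prop := ∀ (K : Type) [Field K] [NumberField K] (T : Finset (AbsoluteValue K ℝ))
  (B : ℝ) (w t t' : ℕ), 1 ≤ B → ∃ C : ℝ, ∀ (a : K) (P P' P'' : Fin 2 → K), a ≠ 0 →
  (∀ v, IsPl v → v a * nn v P ^ w ≤ B * nn v P' ^ t * nn v P'' ^ t') →
  (∀ v ∈ nonarchAbsVal (K := K), v ∉ T → v a * nn v P ^ w ≤ nn v P' ^ t * nn v P'' ^ t') →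
  w * hP P ≤ t * hP P' + t' * hP P'' + C

/-- lower bound for the height of `f ^ i (P)` -/
def S_A2 : Prop := ∀ (K : Type) [Field K] [NumberField K] (f : Fin 2 → Pol K) (d : ℕ)
  (μ : ℕ → ℕ), 2 ≤ d → (∀ n, dg f n = d ^ n) → MuP f d μ →
  ∀ (i : ℕ) (ε : ℝ) (T : Finset (AbsoluteValue K ℝ)), 0 < ε →
  (∀ v ∈ archAbsVal (K := K), v ∈ T) → ∃ A : ℝ, 0 ≤ A ∧ ∀ m, i ≤ m →
  ∃ (Z : Pol K) (C : ℝ), Z ≠ 0 ∧ ∀ P : Fin 2 → K, SI T P → eval P Z ≠ 0 →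
    ((μ i : ℝ) / (d : ℝ) ^ i - ε) * hP P ≤
      hP (orb f P i) + A * hP (orb f P m) / (d : ℝ) ^ m + C

/-! ## Upper bound for the height of the value of a polynomial -/

/-- elements of `EE 1 F N s'` modulo an irreducible polynomial -/
def S_DimI : Prop := ∀ (K : Type) [Field K] (_ : K →+* ℂ) (G : Pol K) (u : Fin 2 → Pol K)
  (M e : ℕ) (Ψ : Pol K), Irreducible G →
  (∃ E : Finset K, ∀ b, b ∉ E → IsRelPrime G (la b u) ∧ Ii G (la b u) ≤ M) →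
  Ψ.totalDegree ≤ e → ∀ (N s' : ℕ) (W : Submodule K (Pol K)), FiniteDimensional K W →
  W ≤ EE 1 (aeval u Ψ) N s' →
  Module.finrank K W ≤ Module.finrank K (W ⊓ II G 1 : Submodule K (Pol K)) +
    (N * e * M + s' * G.totalDegree + G.totalDegree)

/-- elements of `EE 1 F N s'` modulo a squarefree polynomial -/
def S_DimQ : Prop := ∀ (K : Type) [Field K] (_ : K →+* ℂ) (Q : Pol K) (u : Fin 2 → Pol K)
  (M e : ℕ) (Ψ : Pol K), Q ≠ 0 → Squarefree Q →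
  (∃ E : Finset K, ∀ b, b ∉ E → IsRelPrime Q (la b u) ∧ Ii Q (la b u) ≤ M) →
  Ψ.totalDegree ≤ e → ∀ (N s' : ℕ) (W : Submodule K (Pol K)), FiniteDimensional K W →
  W ≤ EE 1 (aeval u Ψ) N s' →
  Module.finrank K W ≤ Module.finrank K (W ⊓ II Q 1 : Submodule K (Pol K)) +
    (N * e * M + s' * Q.totalDegree + Q.totalDegree)

/-- divisibility by several fibres of `Q` -/
def S_DivQ : Prop := ∀ (K : Type) [Field K] (_ : K →+* ℂ) (Q : Pol K) (u : Fin 2 → Pol K)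
  (M e : ℕ) (Ψ : Pol K) (𝒜 : Finset K), 1 ≤ Q.totalDegree →
  (∀ c ∈ 𝒜, Squarefree (Q + C c)) →
  (∀ c ∈ 𝒜, ∃ E : Finset K, ∀ b, b ∉ E → IsRelPrime (Q + C c) (la b u) ∧
    Ii (Q + C c) (la b u) ≤ M) →
  Ψ.totalDegree ≤ e → ∀ (N s' : ℕ) (W : Submodule K (Pol K)), FiniteDimensional K W →
  W ≤ EE 1 (aeval u Ψ) N s' →
  𝒜.card * (N * e * M + s' * Q.totalDegree + Q.totalDegree) < Module.finrank K W →
  ∃ R : Pol K, R ≠ 0 ∧ (∏ c ∈ 𝒜, (Q + C c)) * R ∈ W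

/-- the auxiliary polynomial for `Q` -/
def S_A1g : Prop := ∀ (K : Type) [Field K] (_ : K →+* ℂ) (Q : Pol K) (u : Fin 2 → Pol K)
  (M e D : ℕ) (Ψ : Pol K) (𝒜 : Finset K), 1 ≤ Q.totalDegree →
  (∀ c ∈ 𝒜, Squarefree (Q + C c)) →
  (∀ c ∈ 𝒜, ∃ E : Finset K, ∀ b, b ∉ E → IsRelPrime (Q + C c) (la b u) ∧
    Ii (Q + C c) (la b u) ≤ M) →
  Ψ.totalDegree ≤ e → (aeval u Ψ : Pol K).totalDegree = D → 1 ≤ D → ∀ N S : ℕ, D ≤ S →
  2 * 𝒜.card * (N * e * M + S * Q.totalDegree + Q.totalDegree) +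
    N * ((S - D + 1) * (S - D + 2)) < (N + 1) * ((S + 1) * (S + 2)) →
  ∃ (R : Pol K) (a : ℕ → Pol K), R ≠ 0 ∧ (∀ k, (a k).totalDegree ≤ S) ∧
    (∏ c ∈ 𝒜, (Q + C c)) * R = ∑ k ∈ Finset.range (N + 1), a k * (aeval u Ψ : Pol K) ^ k

/-- numerical inequality -/
def S_NA1 : Prop := ∀ (M J q : ℕ) (ε : ℝ), 1 ≤ J → 1 ≤ q → 0 < ε → ∃ A : ℝ, 0 ≤ A ∧
  ∀ e : ℕ, 1 ≤ e → ∃ N S s : ℕ, 1 ≤ s ∧ J * e ≤ S ∧
    2 * s * (N * e * M + S * q + q) + N * ((S - J * e + 1) * (S - J * e + 2)) <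
      (N + 1) * ((S + 1) * (S + 2)) ∧
    (S : ℝ) ≤ ((M : ℝ) / J + ε) * s ∧ (N : ℝ) * (J * e) ≤ A * s

/-- upper bound for the height of `Q (P)` -/
def S_A1 : Prop := ∀ (K : Type) [Field K] [NumberField K] (f : Fin 2 → Pol K) (d : ℕ), 2 ≤ d →
  (∀ n, dg f n = d ^ n) → ∀ (Q : Pol K) (M j : ℕ),
  (∃ E : Finset K, ∀ c, c ∉ E → ∃ E' : Finset K, ∀ b, b ∉ E' →
    IsRelPrime (Q + C c) (la b (it f j)) ∧ Ii (Q + C c) (la b (it f j)) ≤ M) →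
  ∀ (ε : ℝ) (T : Finset (AbsoluteValue K ℝ)), 0 < ε →
  (∀ v ∈ archAbsVal (K := K), v ∈ T) → ∃ A : ℝ, 0 ≤ A ∧ ∀ m, j ≤ m →
  ∃ (Z : Pol K) (C : ℝ), Z ≠ 0 ∧ ∀ P : Fin 2 → K, SI T P → eval P Z ≠ 0 →
    hP ![eval P Q, 0] ≤
      ((M : ℝ) / (d : ℝ) ^ j + ε) * hP P + A * hP (orb f P m) / (d : ℝ) ^ m + C

/-! ## The polynomials attached to words -/

/-- one of finitely many polynomials is large at all places of `T` -/
def S_SelW : Prop := ∀ (K : Type) [Field K] [CharZero K] (f : Fin 2 → Pol K)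
  (v : Fin 2 → Fin 2 → K) (k : ℕ) (T : Finset (AbsoluteValue K ℝ)),
  v 0 0 * v 1 1 - v 0 1 * v 1 0 ≠ 0 → T.card < 2 ^ (k + 1) →
  ∃ (𝒮 : Finset ((ℕ → Fin 2) × K × K)) (κ : ℝ), 0 < κ ∧ ∀ P : Fin 2 → K, ∃ x ∈ 𝒮, ∀ v' ∈ T,
    κ * ∏ i ∈ Finset.range (k + 1), nn v' (orb f P i) ≤
      nn v' ![eval P (Qw f v k x.1 x.2.1 x.2.2), 0]

/-- from inequalities at the places of `T` to the sum of heights -/
def S_PFS : Prop := ∀ (K : Type) [Field K] [NumberField K] (T : Finset (AbsoluteValue K ℝ))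
  (κ : ℝ) (k : ℕ), 0 < κ → (∀ v ∈ archAbsVal (K := K), v ∈ T) → ∃ C : ℝ,
  ∀ (Pt : ℕ → Fin 2 → K) (P' : Fin 2 → K),
  (∀ v ∈ T, κ * ∏ i ∈ Finset.range (k + 1), nn v (Pt i) ≤ nn v P') →
  (∀ i, i ≤ k → SI T (Pt i)) → ∑ i ∈ Finset.range (k + 1), hP (Pt i) ≤ hP P' + C

/-- upper bounds for the values of `Qw` -/
def S_StrU : Prop := ∀ (K : Type) [Field K] (φ : K →+* ℂ) (f : Fin 2 → Pol K)
  (v : Fin 2 → Fin 2 → K) (k : ℕ) (w : ℕ → Fin 2) (a c c' : K), ∃ B : ℝ, 1 ≤ B ∧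
  ∀ z : Fin 2 → ℂ,
    ‖eval₂ φ z (Qw f v k w a c + C c')‖ ≤
      B * ∏ i ∈ Finset.range (k + 1), cn (ce φ (it f i) z) ∧
    ∀ θ : ℝ, 0 < θ → (∀ i, i ≤ k → 1 ≤ θ * cn (ce φ (it f i) z) ∧
      ‖eval₂ φ z (aeval (it f i) (lf (v (w i))) : Pol K)‖ ≤ θ * cn (ce φ (it f i) z)) →
    ‖eval₂ φ z (Qw f v k w a c + C c')‖ ≤
      B * θ * ∏ i ∈ Finset.range (k + 1), cn (ce φ (it f i) z)

/-- the strict inequality -/
def S_Str : Prop := ∀ (K : Type) [Field K] (φ : K →+* ℂ) (f : Fin 2 → Pol K) (d : ℕ)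
  (μ : ℕ → ℕ) (v : Fin 2 → Fin 2 → K) (k : ℕ) (w : ℕ → Fin 2), 1 ≤ d →
  (∀ n, dg f n = d ^ n) → MuP f d μ → WR φ f v k w → ∀ a c c' : K,
  Qw f v k w a c + C c' ≠ 0 → ∃ E : Finset K, ∀ b, b ∉ E →
    IsRelPrime (Qw f v k w a c + C c') (la b (it f (k + 1))) ∧
    Ii (Qw f v k w a c + C c') (la b (it f (k + 1))) + 1 ≤
      ∑ i ∈ Finset.range (k + 1), μ i * d ^ (k + 1 - i)

/-! ## Words are realised if `f` is finite -/

/-- the integral norm as a product over the points of the fibre -/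
def S_Fib : Prop := ∀ (A B : Type) [CommRing A] [IsDomain A] [IsIntegrallyClosed A]
  [CommRing B] [IsDomain B] [IsIntegrallyClosed B] [CharZero A] [Algebra A B]
  [Module.Finite A B] [Module.IsTorsionFree A B], ∃ n : ℕ, 1 ≤ n ∧ ∀ ψ : A →+* ℂ,
  ∃ χ : Fin n → (B →+* ℂ), (∀ i, (χ i).comp (algebraMap A B) = ψ) ∧
    ∀ u : B, ψ (Algebra.intNorm A B u) = ∏ i, χ i u

/-- the degree of the integral norm of the equation of a curve with polynomial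
parametrisation -/
def S_Deg : Prop := ∀ (K B : Type) [Field K] [CommRing B] [IsDomain B] [IsIntegrallyClosed B]
  [Algebra (Polynomial (Polynomial K)) B] [Module.Finite (Polynomial (Polynomial K)) B]
  [Module.IsTorsionFree (Polynomial (Polynomial K)) B] (u : B) (p : Polynomial K)
  (e : (B ⧸ Ideal.span {u}) ≃+* Polynomial K), u ≠ 0 →
  (∀ r : Polynomial K, e (Ideal.Quotient.mk _
    (algebraMap (Polynomial (Polynomial K)) B (Polynomial.C r))) = r.comp p) →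
  (Algebra.intNorm (Polynomial (Polynomial K)) B u).natDegree = p.natDegree

/-- the norm of a finite map of the plane -/
def S_NF : Prop := ∀ (K : Type) [Field K] (φ : K →+* ℂ) (f : Fin 2 → Pol K), Fn f →
  (∀ Φ : Pol K, (aeval f Φ : Pol K) = 0 → Φ = 0) → ∃ (n : ℕ) (N : Pol K → Pol K), 1 ≤ n ∧
  (∀ R : Fin 2 → ℂ, ∃ z : Fin n → Fin 2 → ℂ, (∀ i, ce φ f (z i) = R) ∧
    ∀ u : Pol K, eval₂ φ R (N u) = ∏ i, eval₂ φ (z i) u) ∧
  ∀ (e p : Fin 2 → K) (q : Fin 2 → Polynomial K) (δ : ℕ), e ≠ 0 →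
    (∀ i, q i = aeval (fun k => Polynomial.C (p k) + Polynomial.C (e k) * Polynomial.X) (f i)) →
    max (q 0).natDegree (q 1).natDegree = δ →
    (N (lf e - C (eval p (lf e)))).totalDegree = δ ∧ ∀ v : Fin 2 → K,
      (eval v (homogeneousComponent δ (N (lf e - C (eval p (lf e))))) ≠ 0 ↔
        v ≠ 0 ∧ (Polynomial.C (v 1) * q 0 - Polynomial.C (v 0) * q 1).natDegree = δ)

/-- finite maps are proper -/
def S_Prp : Prop := ∀ (K : Type) [Field K] (φ : K →+* ℂ) (f : Fin 2 → Pol K), Fn f →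
  ∃ (C : ℝ) (k : ℕ), 1 ≤ C ∧ ∀ z : Fin 2 → ℂ, cn z ≤ C * cn (ce φ f z) ^ k

/-- top forms of compositions -/
def S_Top : Prop := ∀ (K : Type) [Field K] (u : Fin 2 → Pol K) (Ψ : Pol K) (d e : ℕ), 1 ≤ d →
  (∀ i, (u i).totalDegree ≤ d) → Ψ.totalDegree ≤ e →
  homogeneousComponent (d * e) (aeval u Ψ : Pol K) =
    aeval (fun i => homogeneousComponent d (u i)) (homogeneousComponent e Ψ)

/-- a base point is not the constant value of the map at infinity -/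
def S_ND : Prop := ∀ (K : Type) [Field K] [CharZero K] (f : Fin 2 → Pol K) (d : ℕ)
  (v : Fin 2 → K), 1 ≤ d → (∀ i, (f i).totalDegree ≤ d) → dg f 2 = d ^ 2 → v ≠ 0 →
  (∀ i, eval v (homogeneousComponent d (f i)) = 0) → ∃ e : Fin 2 → K,
    v 1 * eval e (homogeneousComponent d (f 0)) -
      v 0 * eval e (homogeneousComponent d (f 1)) ≠ 0

/-- preimages near a base point -/
def S_Pre : Prop := ∀ (K : Type) [Field K] (φ : K →+* ℂ) (f : Fin 2 → Pol K) (d : ℕ)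
  (b v e : Fin 2 → K), 1 ≤ d → (∀ i, (f i).totalDegree ≤ d) → Fn f →
  (∀ Φ : Pol K, (aeval f Φ : Pol K) = 0 → Φ = 0) → b ≠ 0 →
  (∀ i, eval b (homogeneousComponent d (f i)) = 0) →
  v 1 * eval e (homogeneousComponent d (f 0)) -
    v 0 * eval e (homogeneousComponent d (f 1)) ≠ 0 →
  ∃ η C ρ : ℝ, 0 < η ∧ 0 < C ∧ 0 < ρ ∧ ∀ R : Fin 2 → ℂ, ρ ≤ cn R →
    ρ * ‖eval₂ φ R (lf v)‖ ≤ cn R → ∃ z : Fin 2 → ℂ, ce φ f z = R ∧
      ‖eval₂ φ z (lf b)‖ ≤ C * cn z * cn z ^ (-η)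

/-- all words are realised if `f` is finite -/
def S_WordF : Prop := ∀ (K : Type) [Field K] (φ : K →+* ℂ) (f : Fin 2 → Pol K) (d : ℕ)
  (v : Fin 2 → Fin 2 → K), 2 ≤ d → (∀ n, dg f n = d ^ n) → Fn f →
  (∀ Φ : Pol K, (aeval f Φ : Pol K) = 0 → Φ = 0) → (∀ l, v l ≠ 0) →
  (∀ l i, eval (v l) (homogeneousComponent d (f i)) = 0) → ∀ k w, WR φ f v k w

/-! ## The theorem -/

/-- the height inequality -/
def S_Key2 : Prop := ∀ (K : Type) [Field K] [NumberField K] (φ : K →+* ℂ) (f : Fin 2 → Pol K)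
  (d : ℕ) (v : Fin 2 → Fin 2 → K) (P : Fin 2 → K), 2 ≤ d → (∀ n, dg f n = d ^ n) →
  v 0 0 * v 1 1 - v 0 1 * v 1 0 ≠ 0 → (∀ k w, WR φ f v k w) → KeyC f d P

/-- base points of iterates -/
def S_BaseUp : Prop := ∀ (K : Type) [Field K] (f : Fin 2 → Pol K) (d : ℕ) (v : Fin 2 → K)
  (j j' : ℕ), 1 ≤ d → (∀ n, dg f n = d ^ n) → j ≤ j' →
  (∀ i, eval v (homogeneousComponent (d ^ j) (it f j i)) = 0) →
  ∀ i, eval v (homogeneousComponent (d ^ j') (it f j' i)) = 0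

/-- iterates of finite maps -/
def S_FnIt : Prop := ∀ (K : Type) [Field K] (f : Fin 2 → Pol K), Fn f →
  (∀ Φ : Pol K, (aeval f Φ : Pol K) = 0 → Φ = 0) → ∀ j, Fn (it f j) ∧
    ∀ Φ : Pol K, (aeval (it f j) Φ : Pol K) = 0 → Φ = 0

/-- iterates of iterates -/
def S_ItIt : Prop := ∀ (K : Type) [Field K] (f : Fin 2 → Pol K) (j n : ℕ),
  it (it f j) n = it f (j * n) ∧ ∀ P : Fin 2 → K, orb (it f j) P n = orb f P (j * n)

/-- the height inequality for an iterate is sufficient -/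
def S_KeyIt : Prop := ∀ (K : Type) [Field K] [NumberField K] (f : Fin 2 → Pol K) (d j : ℕ)
  (P : Fin 2 → K), 2 ≤ d → (∀ n, dg f n = d ^ n) → 1 ≤ j → Dense2 (orb f P) →
  (∀ r, KeyC (it f j) (d ^ j) (orb f P r)) → KeyC f d P

/-- the height inequality is sufficient -/
def S_MainC : Prop := ∀ (K : Type) [Field K] [NumberField K] (f : Fin 2 → Pol K) (d : ℕ)
  (P : Fin 2 → K), 2 ≤ d → (∀ n, dg f n = d ^ n) → Dense2 (orb f P) → KeyC f d P →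
  Tendsto (fun n : ℕ => (hP (orb f P n) / Module.finrank ℚ K) ^ ((1 : ℝ) / n)) atTop (𝓝 d)

/-- the theorem -/
def S_Main3 : Prop := ∀ (K : Type) [Field K] [NumberField K] (f : Fin 2 → Pol K) (d : ℕ)
  (v : Fin 2 → Fin 2 → K) (P : Fin 2 → K), 2 ≤ d → (∀ n, dg f n = d ^ n) → Fn f →
  v 0 0 * v 1 1 - v 0 1 * v 1 0 ≠ 0 →
  (∀ l, ∃ j, ∀ i, eval (v l) (homogeneousComponent (d ^ j) (it f j i)) = 0) →
  Dense2 (orb f P) →
  Tendsto (fun n : ℕ => (hP (orb f P n) / Module.finrank ℚ K) ^ ((1 : ℝ) / n)) atTop (𝓝 d)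

end Pool.Agent.Work.MP_91e6de_nt.BM
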